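import Pool.Agent.V5helper49.LR.Stm3

/-!
# Project LR, job FIX2 (adaptation of V5helper34.LR.FIX)
-/

set_option autoImplicit false

namespace Pool.Agent.V5helper61.LR

open Finset Filter
open Pool.Agent.V5helper42.RS (EE)
open Pool.Agent.V5helper49.LR

lemma ev_aux2 (ε : ℝ) (hε : 0 < ε) (hε1 : ε ≤ 1) : ∀ᶠ L : ℝ in atTop, 1 ≤ L ∧
    2 * L ^ (ε / 8) ≤ Real.exp (L ^ (ε / 4)) - 1 ∧
    Real.exp (-(L ^ (ε / 4) / 2)) + Real.exp (-(L / 5)) * Real.exp (L ^ (1 - ε / 3)) ≤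
      Real.exp (-(L ^ (ε / 4) / 3)) := by
  have h1 : ∀ᶠ L : ℝ in atTop, L ^ (-(ε / 3)) ≤ 1 / 20 :=
    (tendsto_rpow_neg_atTop (by positivity : 0 < ε / 3)).eventually_le_const (by norm_num)
  have h2 : ∀ᶠ L : ℝ in atTop, L ^ (-(1 - ε / 4)) ≤ 3 / 10 :=
    (tendsto_rpow_neg_atTop (by linarith : 0 < 1 - ε / 4)).eventually_le_const (by norm_num)
  have h3 : ∀ᶠ L : ℝ in atTop, 6 ≤ L ^ (ε / 4) :=
    (tendsto_rpow_atTop (by positivity : 0 < ε / 4)).eventually_ge_atTop 6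
  filter_upwards [h1, h2, h3, eventually_ge_atTop 1] with L h1L h2L h3L hL
  have hL0 : 0 < L := by linarith
  refine ⟨hL, ?_, ?_⟩
  · have e1 : L ^ (ε / 8) ≤ L ^ (ε / 4) := Real.rpow_le_rpow_of_exponent_le hL (by linarith)
    have e2 := Real.quadratic_le_exp_of_nonneg (x := L ^ (ε / 4)) (by linarith)
    nlinarith
  · have e1 : L ^ (1 - ε / 3) = L * L ^ (-(ε / 3)) := by
      rw [sub_eq_add_neg, Real.rpow_add hL0, Real.rpow_one]
    have e2 : L ^ (1 - ε / 3) ≤ L / 20 := by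
      rw [e1]
      have := mul_le_mul_of_nonneg_left h1L hL0.le
      linarith
    have e3 : L ^ (ε / 4) = L * L ^ (-(1 - ε / 4)) := by
      rw [show -(1 - ε / 4) = ε / 4 - 1 by ring, Real.rpow_sub hL0, Real.rpow_one]
      field_simp
    have e4 : L ^ (ε / 4) ≤ 3 * L / 10 := by
      rw [e3]
      have := mul_le_mul_of_nonneg_left h2L hL0.le
      linarith
    rw [← Real.exp_add]
    have e5 : Real.exp (-(L / 5) + L ^ (1 - ε / 3)) ≤ Real.exp (-(L ^ (ε / 4) / 2)) :=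
      Real.exp_le_exp.2 (by linarith)
    have e6 : Real.exp (-(L ^ (ε / 4) / 3)) = Real.exp (-(L ^ (ε / 4) / 2)) * Real.exp (L ^ (ε / 4) / 6) := by
      rw [← Real.exp_add]; congr 1; ring
    have e7 : 2 ≤ Real.exp (L ^ (ε / 4) / 6) := by
      have := Real.add_one_le_exp (L ^ (ε / 4) / 6)
      linarith
    rw [e6]
    have e8 := Real.exp_pos (-(L ^ (ε / 4) / 2))
    nlinarith

theorem t_FIX2 (hEEJ : S_EEJ) (hCHB : S_CHB) (hMAS : S_MAS2) (hRHO : S_RHO2) (hJNT : S_JNT) (hCOR : S_COR) :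
    S_FIX2 := by
  intro ε hε hε1
  obtain ⟨X1, hX1⟩ := hMAS ε hε hε1
  obtain ⟨X2, hX2⟩ := hRHO ε hε hε1
  obtain ⟨X3, hX3⟩ := hCOR ε hε hε1
  have hlog : Tendsto (fun X : ℕ => Real.log (X : ℝ)) atTop atTop :=
    Real.tendsto_log_atTop.comp tendsto_natCast_atTop_atTop
  obtain ⟨X4, hX4⟩ := eventually_atTop.1 (hlog.eventually (ev_aux2 ε hε hε1))
  refine ⟨max (max X1 X2) (max X3 (max X4 1)), ?_⟩
  intro X hX H T hH hT hTc A hA hAd ρ
  have hXX1 : X1 ≤ X := by omega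
  have hXX2 : X2 ≤ X := by omega
  have hXX3 : X3 ≤ X := by omega
  have hXX4 : X4 ≤ X := by omega
  have hX1' : 1 ≤ X := by omega
  obtain ⟨hL1, hL2, hLexp⟩ := hX4 X hXX4
  have hX0 : (0 : ℝ) < X := by exact_mod_cast hX1'
  set N := A.card with hNdef
  have hN0 : (0 : ℝ) < N := lt_of_lt_of_le (Real.rpow_pos_of_pos hX0 _) hA
  have hN1 : 1 ≤ N := by exact_mod_cast hN0
  have hL0 : 0 < Real.log X := by linarith
  set V := range (H + 1) \ T with hV
  set B := B2 ε X with hB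
  set l := (Q2 ε X).toList with hl
  have hlp : ∀ p ∈ l, p ∈ Q2 ε X := fun p hp => mem_toList.1 hp
  have hlpos : ∀ p ∈ l, 0 < p := fun p hp => (mem_filter.1 (hlp p hp)).2.pos
  have hnd : l.Nodup := nodup_toList _
  have hdisj : Disjoint T V := disjoint_sdiff
  set r := A1 T V B l ∅ with hr
  have hrge : Real.exp (-Real.log X ^ (1 - ε / 3)) ≤ r :=
    hX2 X hXX2 H T V hH hT sdiff_subset hdisj hTc
  have hr0 : 0 < r := lt_of_lt_of_le (Real.exp_pos _) hrge
  set η : ℝ := Real.exp (-(Real.log X ^ (ε / 4) / 2)) with hη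
  have hη0 : 0 < η := Real.exp_pos _
  have hcT : 2 * T.card ≤ yy ε X := by
    have h5 : Real.exp (Real.log X ^ (ε / 4)) - 1 < yy ε X := Nat.sub_one_lt_floor _
    have h7 : ((2 * T.card : ℕ) : ℝ) < (yy ε X : ℝ) := by push_cast; linarith
    exact (by exact_mod_cast h7.le)
  -- the enumeration
  set e : Fin N ↪o ℕ := A.orderEmbOfFin hNdef.symm with he
  have heA : ∀ i, e i ∈ A := fun i => A.orderEmbOfFin_mem hNdef.symm i
  have hesurj : ∀ n ∈ A, ∃ i, e i = n := by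
    intro n hn
    have : n ∈ Set.range e := by
      rw [he, A.range_orderEmbOfFin hNdef.symm]
      exact_mod_cast hn
    exact this
  set ν : ℕ → ℕ := fun s => if h : s < N then e ⟨s, h⟩ else 0 with hν
  have hνA : ∀ s < N, ν s ∈ A := by
    intro s hs
    simp only [hν, dif_pos hs]
    exact heA _
  have hνlt : ∀ s < N, ∀ s' < s, ν s' < ν s := by
    intro s hs s' hs'
    simp only [hν, dif_pos hs, dif_pos (hs'.trans hs)]
    exact e.strictMono (by exact_mod_cast hs')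
  -- the pairs
  have hpair : ∀ s < N, ∀ s' < s, EE l (fun σ => open Classical in
      if Ok T V B l (ν s) σ ∧ Ok T V B l (ν s') σ then 1 else 0) ρ ≤ (1 + η) * r ^ 2 := by
    intro s hs s' hs'
    have hlt := hνlt s hs s' hs'
    obtain ⟨hD1, hD2⟩ := hAd (ν s') (hνA s' (hs'.trans hs)) (ν s) (hνA s hs) hlt
    obtain ⟨m1, _, _, _, m5⟩ := hX1 X hXX1 H (ν s - ν s') hH hD1 hD2
    have hReg : Reg T V B H (yy ε X) :=
      { T_le := fun t ht => by have := mem_range.1 (hT ht); omega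
        V_le := fun v hv => by have := mem_range.1 (mem_sdiff.1 hv).1; omega
        disj := hdisj
        B_ge := fun p hp => by
          have := (mem_Ioc.1 (mem_filter.1 hp).1).1
          omega
        w_ge := m5 }
    have hj := hJNT T V B H (yy ε X) (ν s - ν s') hReg l hnd hlpos (fun p hp _ => by
      have := (mem_Ioc.1 (mem_filter.1 (hlp p hp)).1).1
      omega) m1
    have he := (hEEJ T V B l hnd hlpos ρ).2 (ν s') (ν s - ν s')
    have hs2 : ν s' + (ν s - ν s') = ν s := by omega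
    rw [hs2] at he
    rw [he]
    refine hj.trans ?_
    apply mul_le_mul_of_nonneg_right _ (sq_nonneg r)
    rw [hl, prod_map_toList (Q2 ε X) (fun p => 1 + cc T B H (ν s - ν s') p)]
    exact hX3 X hXX3 H T hH hT (ν s - ν s') hD1 hD2
  have hsum : 2 * ∑ s ∈ range N, ∑ s' ∈ range s, EE l (fun σ => open Classical in
      if Ok T V B l (ν s) σ ∧ Ok T V B l (ν s') σ then 1 else 0) ρ ≤
      (N : ℝ) ^ 2 * r ^ 2 * (1 + η) := by
    have h1 : ∀ s ∈ range N, ∑ s' ∈ range s, EE l (fun σ => open Classical in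
        if Ok T V B l (ν s) σ ∧ Ok T V B l (ν s') σ then 1 else 0) ρ ≤
        (s : ℝ) * ((1 + η) * r ^ 2) := by
      intro s hs
      have hsN := mem_range.1 hs
      refine le_trans (sum_le_sum fun s' hs' => hpair s hsN s' (mem_range.1 hs')) ?_
      rw [sum_const, card_range, nsmul_eq_mul]
    have h3 := sum_le_sum h1
    rw [← sum_mul] at h3
    have h5 : 2 * ∑ s ∈ range N, (s : ℝ) ≤ (N : ℝ) ^ 2 := by
      have h8 : ((N * (N - 1) : ℕ) : ℝ) ≤ (N : ℝ) * N := by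
        have : N * (N - 1) ≤ N * N := Nat.mul_le_mul_left _ (Nat.sub_le _ _)
        exact_mod_cast this
      have h9 : (∑ s ∈ range N, (s : ℝ)) * 2 = ((N * (N - 1) : ℕ) : ℝ) := by
        have := congrArg (Nat.cast (R := ℝ)) (sum_range_id_mul_two N)
        push_cast at this ⊢
        exact this
      nlinarith
    have hr2 : 0 ≤ (1 + η) * r ^ 2 := by positivity
    calc 2 * ∑ s ∈ range N, ∑ s' ∈ range s, EE l (fun σ => open Classical in
        if Ok T V B l (ν s) σ ∧ Ok T V B l (ν s') σ then 1 else 0) ρ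
        ≤ 2 * ((∑ s ∈ range N, (s : ℝ)) * ((1 + η) * r ^ 2)) := by linarith
      _ = (2 * (∑ s ∈ range N, (s : ℝ))) * ((1 + η) * r ^ 2) := by ring
      _ ≤ (N : ℝ) ^ 2 * ((1 + η) * r ^ 2) := mul_le_mul_of_nonneg_right h5 hr2
      _ = (N : ℝ) ^ 2 * r ^ 2 * (1 + η) := by ring
  have hmain := hCHB l hlpos ρ N (fun s σ => Ok T V B l (ν s) σ) r η hr0 hN1
    (fun s _ => (hEEJ T V B l hnd hlpos ρ).1 (ν s)) hsum
  have hiff : ∀ σ : ℕ → ℕ, (∀ n ∈ A, ¬ Ok T V B l n σ) ↔ ∀ s < N, ¬ Ok T V B l (ν s) σ := by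
    intro σ
    constructor
    · intro h s hs
      exact h _ (hνA s hs)
    · intro h n hn
      obtain ⟨i, hi⟩ := hesurj n hn
      have := h i.1 i.2
      simp only [hν, dif_pos i.2] at this
      rw [← hi]
      exact this
  refine le_trans (le_of_eq ?_) (hmain.trans ?_)
  · classical
    congr 1
    funext σ
    by_cases hc : ∀ n ∈ A, ¬ Ok T V B l n σ
    · rw [if_pos hc, if_pos ((hiff σ).1 hc)]
    · rw [if_neg hc, if_neg (fun h => hc ((hiff σ).2 h))]
  have hfin : 1 / (N * r) ≤ Real.exp (-(Real.log X / 5)) * Real.exp (Real.log X ^ (1 - ε / 3)) := by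
    have h1 : Real.exp (Real.log X / 5) * Real.exp (-Real.log X ^ (1 - ε / 3)) ≤ N * r := by
      apply mul_le_mul _ hrge (Real.exp_pos _).le hN0.le
      refine le_trans (le_of_eq ?_) hA
      rw [Real.rpow_def_of_pos hX0]
      congr 1
      ring
    have h2 : 1 / (N * r) ≤ 1 / (Real.exp (Real.log X / 5) * Real.exp (-Real.log X ^ (1 - ε / 3))) :=
      one_div_le_one_div_of_le (mul_pos (Real.exp_pos _) (Real.exp_pos _)) h1
    refine h2.trans (le_of_eq ?_)
    rw [one_div, mul_inv, ← Real.exp_neg, ← Real.exp_neg, neg_neg]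
  linarith

end Pool.Agent.V5helper61.LR
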