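import Pool.Agent.V5helper49.LR.Stm2
import Pool.Agent.Y882.JR.Core5
import Pool.Agent.W378.DC.MP
import Pool.Agent.W366.DC.SFX

/-!
# Project LR, job LS: the linear sieve for an interval with arbitrary classes removed
-/

set_option autoImplicit false

namespace Pool.Agent.V5helper61.LR

open Finset Filter
open Pool.Agent.W23.DC
open Pool.Agent.Y882
open Pool.Agent.Y882.JR

/-- the number of the elements of a class in an interval -/
theorem card_cls (d r m y : ℕ) (hd : 0 < d) :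
    |(((Ioc m (m + y)).filter (fun n => n ≡ r [MOD d])).card : ℝ) - (y : ℝ) / d| ≤ 1 := by
  have h := Nat.Ioc_filter_modEq_card m (m + y) hd r
  have hd' : (0 : ℚ) < d := by exact_mod_cast hd
  have h1 : ((((Ioc m (m + y)).filter (fun n => n ≡ r [MOD d])).card : ℤ) : ℚ) =
      ((max (⌊(((m + y : ℕ) : ℚ) - r) / d⌋ - ⌊((m : ℚ) - r) / d⌋) 0 : ℤ) : ℚ) := by
    rw [← h]
  have h2 := Int.floor_le ((((m + y : ℕ) : ℚ) - r) / d)
  have h3 := Int.lt_floor_add_one ((((m + y : ℕ) : ℚ) - r) / d)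
  have h4 := Int.floor_le (((m : ℚ) - r) / d)
  have h5 := Int.lt_floor_add_one (((m : ℚ) - r) / d)
  have h6 : (((m + y : ℕ) : ℚ) - r) / d - ((m : ℚ) - r) / d = (y : ℚ) / d := by
    push_cast
    field_simp
    ring
  have h7 : (0 : ℚ) ≤ (y : ℚ) / d := by positivity
  have h8 : |((((Ioc m (m + y)).filter (fun n => n ≡ r [MOD d])).card : ℕ) : ℚ) - (y : ℚ) / d| ≤ 1 := by
    have h9 : ((((Ioc m (m + y)).filter (fun n => n ≡ r [MOD d])).card : ℕ) : ℚ) =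
        ((((Ioc m (m + y)).filter (fun n => n ≡ r [MOD d])).card : ℤ) : ℚ) := by push_cast; rfl
    rw [h9, h1, abs_le]
    push_cast
    push_cast at h2 h3 h6
    constructor
    · have := le_max_left ((⌊((m : ℚ) + y - r) / d⌋ : ℚ) - (⌊((m : ℚ) - r) / d⌋ : ℚ)) 0
      linarith
    · have : max ((⌊((m : ℚ) + y - r) / d⌋ : ℚ) - (⌊((m : ℚ) - r) / d⌋ : ℚ)) 0 ≤ (y : ℚ) / d + 1 := by
        apply max_le <;> linarith
      linarith
  have h10 := (Rat.cast_le (K := ℝ)).2 h8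
  rw [Rat.cast_abs, Rat.cast_sub, Rat.cast_div, Rat.cast_natCast, Rat.cast_natCast, Rat.cast_natCast,
    Rat.cast_one] at h10
  exact h10

/-- the number of the elements of an interval in given classes modulo several primes -/
theorem card_clss (T : Finset ℕ) (hT : ∀ p ∈ T, p.Prime) (σ : ℕ → ℕ) (hσ : ∀ p ∈ T, σ p < p) (m y : ℕ) :
    |(((Ioc m (m + y)).filter (fun n => ∀ p ∈ T, n % p = σ p)).card : ℝ) - (y : ℝ) * ∏ p ∈ T, 1 / (p : ℝ)| ≤ 1 := by
  classical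
  have hc : Set.Pairwise (T : Set ℕ) (Function.onFun Nat.Coprime (fun p : ℕ => p)) := by
    intro p hp q hq hpq
    exact (Nat.coprime_primes (hT p hp) (hT q hq)).2 hpq
  obtain ⟨r, hr⟩ := Nat.chineseRemainderOfFinset (fun p => σ p) (fun p => p) T
    (fun p hp => (hT p hp).ne_zero) hc
  have hd : 0 < ∏ p ∈ T, p := prod_pos fun p hp => (hT p hp).pos
  have h1 : (Ioc m (m + y)).filter (fun n => ∀ p ∈ T, n % p = σ p) =
      (Ioc m (m + y)).filter (fun n => n ≡ r [MOD (∏ p ∈ T, p)]) := by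
    apply filter_congr
    intro n _
    have h2 : n ≡ r [MOD (∏ p ∈ T, p)] ↔ ∀ p ∈ T, n ≡ r [MOD p] := by
      constructor
      · intro h p hp
        exact h.of_dvd (dvd_prod_of_mem _ hp)
      · intro h
        rw [Nat.modEq_iff_dvd]
        push_cast
        apply Finset.prod_dvd_of_coprime
        · intro p hp q hq hpq
          have := hc hp hq hpq
          exact Nat.isCoprime_iff_coprime.2 this
        · intro p hp
          exact (Nat.modEq_iff_dvd).1 (h p hp)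
    rw [h2]
    apply forall₂_congr
    intro p hp
    have h3 : r % p = σ p := by
      have := hr p hp
      unfold Nat.ModEq at this
      rw [this, Nat.mod_eq_of_lt (hσ p hp)]
    unfold Nat.ModEq
    rw [h3]
  rw [h1]
  have h2 := card_cls (∏ p ∈ T, p) r m y hd
  have h3 : (y : ℝ) * ∏ p ∈ T, 1 / (p : ℝ) = (y : ℝ) / ((∏ p ∈ T, p : ℕ) : ℝ) := by
    push_cast
    rw [prod_div_distrib]
    simp [div_eq_mul_inv]
  rw [h3]
  exact h2

/-- sums of weights over an interval -/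
theorem wsum (P : Finset ℕ) (hP : ∀ p ∈ P, p.Prime) (c : Finset ℕ → ℝ) (σ : ℕ → ℕ) (hσ : ∀ p ∈ P, σ p < p)
    (m y : ℕ) (B D : ℝ) (hB : ∀ T, |c T| ≤ B) (hB0 : 0 ≤ B) (hD : 0 ≤ D)
    (hc : ∀ T ⊆ P, c T ≠ 0 → ((∏ p ∈ T, p : ℕ) : ℝ) ≤ D) (g : ℕ → ℕ → Prop) [∀ n p, Decidable (g n p)]
    (hg : ∀ n, ∀ p ∈ P, (g n p ↔ n % p = σ p)) :
    (y : ℝ) * VV P c (fun p => 1 / (p : ℝ)) - B * D ≤
      ∑ n ∈ Ioc m (m + y), VV P c (fun p => if g n p then 1 else 0) := by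
  classical
  have h1 : ∑ n ∈ Ioc m (m + y), VV P c (fun p => if g n p then (1 : ℝ) else 0) =
      ∑ T ∈ P.powerset, c T * (((Ioc m (m + y)).filter (fun n => ∀ p ∈ T, n % p = σ p)).card : ℝ) := by
    unfold VV
    rw [sum_comm]
    apply sum_congr rfl
    intro T hT
    rw [mem_powerset] at hT
    rw [← mul_sum]
    congr 1
    rw [card_filter]
    push_cast
    apply sum_congr rfl
    intro n _
    by_cases h : ∀ p ∈ T, n % p = σ p
    · rw [if_pos h]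
      apply prod_eq_one
      intro p hp
      rw [if_pos ((hg n p (hT hp)).2 (h p hp))]
    · rw [if_neg h]
      push Not at h
      obtain ⟨p, hp, hne⟩ := h
      apply prod_eq_zero hp
      rw [if_neg (fun hh => hne ((hg n p (hT hp)).1 hh))]
  rw [h1]
  have h2 : (y : ℝ) * VV P c (fun p => 1 / (p : ℝ)) =
      ∑ T ∈ P.powerset, c T * ((y : ℝ) * ∏ p ∈ T, 1 / (p : ℝ)) := by
    unfold VV
    rw [mul_sum]
    apply sum_congr rfl
    intro T _
    ring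
  have h3 : |∑ T ∈ P.powerset, c T * (((Ioc m (m + y)).filter (fun n => ∀ p ∈ T, n % p = σ p)).card : ℝ) -
      ∑ T ∈ P.powerset, c T * ((y : ℝ) * ∏ p ∈ T, 1 / (p : ℝ))| ≤ B * D := by
    rw [← sum_sub_distrib]
    refine (abs_sum_le_sum_abs _ _).trans ?_
    have h4 : ∀ T ∈ P.powerset, |c T * (((Ioc m (m + y)).filter (fun n => ∀ p ∈ T, n % p = σ p)).card : ℝ) -
        c T * ((y : ℝ) * ∏ p ∈ T, 1 / (p : ℝ))| ≤ if c T ≠ 0 then B else 0 := by
      intro T hT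
      rw [mem_powerset] at hT
      split_ifs with h
      · rw [← mul_sub, abs_mul]
        have h5 := card_clss T (fun p hp => hP p (hT hp)) σ (fun p hp => hσ p (hT hp)) m y
        calc |c T| * _ ≤ B * 1 := mul_le_mul (hB T) h5 (abs_nonneg _) hB0
          _ = B := mul_one _
      · push Not at h
        rw [h]
        simp
    refine (sum_le_sum h4).trans ?_
    rw [← sum_filter, sum_const, nsmul_eq_mul, mul_comm]
    apply mul_le_mul_of_nonneg_left _ hB0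
    have h6 : (P.powerset.filter (fun T => c T ≠ 0)).card ≤ (Icc 1 ⌊D⌋₊).card := by
      apply card_le_card_of_injOn (fun T => ∏ p ∈ T, p)
      · intro T hT
        have hT' := mem_filter.1 (mem_coe.1 hT)
        have hTP := mem_powerset.1 hT'.1
        apply mem_coe.2
        rw [mem_Icc]
        exact ⟨prod_pos fun p hp => (hP p (hTP hp)).pos, Nat.le_floor (hc T hTP hT'.2)⟩
      · intro T hT U hU hTU
        have hT' := mem_powerset.1 (mem_filter.1 (mem_coe.1 hT)).1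
        have hU' := mem_powerset.1 (mem_filter.1 (mem_coe.1 hU)).1
        rw [← Nat.primeFactors_prod (fun p hp => hP p (hT' hp)), ← Nat.primeFactors_prod (fun p hp => hP p (hU' hp))]
        exact congrArg Nat.primeFactors hTU
    have h7 : ((P.powerset.filter (fun T => c T ≠ 0)).card : ℝ) ≤ ⌊D⌋₊ := by
      rw [Nat.card_Icc] at h6
      exact_mod_cast h6
    exact h7.trans (Nat.floor_le hD)
  rw [h2]
  have := neg_le_of_abs_le h3
  linarith

/-- Mertens for `1/p` -/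
theorem mer (ε₁ ζ η : ℝ) (hε : 0 < ε₁) (hζ : ζ ≤ 1) (hη : 0 < η) :
    ∃ Y0 : ℕ, ∀ Y : ℕ, Y0 ≤ Y → Mer (pr Y ε₁ ζ) (tt Y) (fun p => 1 / (p : ℝ)) ε₁ ζ η := by
  classical
  obtain ⟨N₀, hN₀⟩ := Pool.Agent.W378.DC.MP ε₁ (η / 2) hε (by linarith)
  have ev : ∀ᶠ N : ℕ in atTop, 2 / η + 3 ≤ (N : ℝ) ^ ε₁ :=
    ((tendsto_rpow_atTop hε).comp tendsto_natCast_atTop_atTop).eventually_ge_atTop _
  obtain ⟨N₁, hN₁⟩ := eventually_atTop.1 ev
  refine ⟨max N₀ (max N₁ 2), fun Y hY a b ha hab hb => ?_⟩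
  have hY0 : N₀ ≤ Y := (le_max_left _ _).trans hY
  have hY1 : N₁ ≤ Y := ((le_max_left _ _).trans (le_max_right _ _)).trans hY
  have hY2 : 2 ≤ Y := ((le_max_right _ _).trans (le_max_right _ _)).trans hY
  have e1 : (pr Y ε₁ ζ).filter (fun p => a ≤ tt Y p ∧ tt Y p < b) = pr Y a b := by
    unfold pr
    ext p
    simp only [mem_filter]
    constructor
    · rintro ⟨⟨h1, h2, _⟩, h3, h4⟩
      exact ⟨h1, h2, h3, h4⟩
    · rintro ⟨h1, h2, h3, h4⟩
      exact ⟨⟨h1, h2, ha.trans h3, h4.trans_le hb⟩, h3, h4⟩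
  rw [e1]
  have h1 := hN₀ Y hY0 a b ha hab (hb.trans hζ)
  have h2 := hN₁ Y hY1
  have hYr : (2 : ℝ) ≤ Y := by exact_mod_cast hY2
  have h3 : (Y : ℝ) ^ ε₁ ≤ (Y : ℝ) ^ a := Real.rpow_le_rpow_of_exponent_le (by linarith) ha
  have h3' : (Y : ℝ) ^ a ≤ (Y : ℝ) ^ b := Real.rpow_le_rpow_of_exponent_le (by linarith) hab
  have h0 : 0 < 2 / η := by positivity
  have h4 : (Y : ℝ) ^ a ≤ ⌈(Y : ℝ) ^ a⌉₊ := Nat.le_ceil _
  have h5 : 2 ≤ ⌈(Y : ℝ) ^ a⌉₊ := by
    have : (2 : ℝ) ≤ ⌈(Y : ℝ) ^ a⌉₊ := by linarith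
    exact_mod_cast this
  have h6 : ⌈(Y : ℝ) ^ a⌉₊ ≤ ⌈(Y : ℝ) ^ b⌉₊ := Nat.ceil_le_ceil h3'
  have h7 := Pool.Agent.W378.DC.TMP.shift_prime (A := ⌈(Y : ℝ) ^ a⌉₊ - 1) (B := ⌈(Y : ℝ) ^ b⌉₊ - 1)
    (by omega) (by omega)
  rw [← Pool.Agent.W378.DC.TMP.pr_eq hY2 (hb.trans hζ), sum_sub_distrib] at h7
  have h8 : 1 / ((⌈(Y : ℝ) ^ a⌉₊ - 1 : ℕ) : ℝ) ≤ η / 2 := by
    have h9 : ((⌈(Y : ℝ) ^ a⌉₊ - 1 : ℕ) : ℝ) = (⌈(Y : ℝ) ^ a⌉₊ : ℝ) - 1 := by
      rw [Nat.cast_sub (by omega)]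
      simp
    have h10 : 2 / η ≤ ((⌈(Y : ℝ) ^ a⌉₊ - 1 : ℕ) : ℝ) := by rw [h9]; linarith
    calc 1 / ((⌈(Y : ℝ) ^ a⌉₊ - 1 : ℕ) : ℝ) ≤ 1 / (2 / η) := one_div_le_one_div_of_le h0 h10
      _ = η / 2 := by rw [one_div_div]
  obtain ⟨a1, a2⟩ := abs_le.1 h1
  rw [abs_le]
  constructor <;> linarith [h7.1, h7.2]

open Classical in
theorem t_LS : Pool.Agent.V5helper49.LR.S_LS := by
  intro η hη hη2
  obtain ⟨A0, F, f, hSF⟩ := Pool.Agent.W366.DC.SFX
  obtain ⟨ζ, hζd⟩ : ∃ ζ : ℝ, ζ = 1 / 2 - η / 2 := ⟨_, rfl⟩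
  obtain ⟨τ, hτd⟩ : ∃ τ : ℝ, τ = 1 - η / 2 := ⟨_, rfl⟩
  obtain ⟨τ', hτ'd⟩ : ∃ τ' : ℝ, τ' = 1 - η / 4 := ⟨_, rfl⟩
  have hζ : 0 < ζ := by linarith
  have hs2 : 2 < τ / ζ := by rw [lt_div_iff₀ hζ]; linarith
  have hs4 : τ / ζ ≤ 4 := by rw [div_le_iff₀ hζ]; linarith
  have hf : 0 < f (τ / ζ) := by
    rw [hSF.f4 _ hs2.le hs4]
    exact div_pos (mul_pos hSF.pos (Real.log_pos (by linarith))) (by linarith)
  obtain ⟨φ, hφ⟩ : ∃ φ : ℝ, φ = f (τ / ζ) / 2 := ⟨_, rfl⟩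
  have hφ0 : 0 < φ := by rw [hφ]; linarith
  obtain ⟨ε₁, η₁, hε₁, hε₁ζ, hη₁, Y1, HC⟩ :=
    core5 1 A0 F f hSF τ ζ τ' φ hζ (by linarith) (by linarith) (by linarith) hφ0
  obtain ⟨Y2, HM⟩ := mer ε₁ ζ η₁ hε₁ (by linarith) hη₁
  obtain ⟨C, hC, HW⟩ := Pool.Agent.V5helper42.RS.W_upper
  obtain ⟨Y3, HW'⟩ := eventually_atTop.1 HW
  have hc1 : 0 < φ / (10 * C) := by positivity
  have ev : ∀ᶠ y : ℕ in atTop, Real.log y ≤ Real.sqrt (φ / (10 * C)) * (y : ℝ) ^ ((1 - τ') / 2) := by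
    have h1 := (isLittleO_log_rpow_atTop (show 0 < (1 - τ') / 2 by linarith)).bound
      (show (0 : ℝ) < Real.sqrt (φ / (10 * C)) from Real.sqrt_pos.2 hc1)
    filter_upwards [tendsto_natCast_atTop_atTop.eventually h1, eventually_ge_atTop 1] with Y hY hY1
    have hY1r : (1 : ℝ) ≤ Y := by exact_mod_cast hY1
    rw [Real.norm_of_nonneg (Real.log_nonneg hY1r), Real.norm_of_nonneg (by positivity)] at hY
    exact hY
  obtain ⟨Y4, HY4⟩ := eventually_atTop.1 ev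
  refine ⟨φ / (2 * C), by positivity, max (max Y1 Y2) (max (max Y3 Y4) 3), ?_⟩
  intro y hy m ρ
  have hy1 : Y1 ≤ y := ((le_max_left _ _).trans (le_max_left _ _)).trans hy
  have hy2 : Y2 ≤ y := ((le_max_right _ _).trans (le_max_left _ _)).trans hy
  have hy3 : Y3 ≤ y := (((le_max_left _ _).trans (le_max_left _ _)).trans (le_max_right _ _)).trans hy
  have hy4 : Y4 ≤ y := (((le_max_right _ _).trans (le_max_left _ _)).trans (le_max_right _ _)).trans hy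
  have hy5 : 3 ≤ y := ((le_max_right _ _).trans (le_max_right _ _)).trans hy
  have hyr : (3 : ℝ) ≤ y := by exact_mod_cast hy5
  have hy0 : (0 : ℝ) < y := by linarith
  have hlog : 0 < Real.log y := Real.log_pos (by linarith)
  obtain ⟨wU, wL, c1, c2, c3, c4⟩ := HC y hy1
  obtain ⟨P, hPd⟩ : ∃ P : Finset ℕ, P = PZ y ζ := ⟨_, rfl⟩
  rw [← hPd] at c2 c3 c4
  have hP : ∀ p ∈ P, p.Prime ∧ p ≤ y := by
    intro p hp
    rw [hPd] at hp
    unfold PZ at hp
    rw [mem_filter, mem_Icc] at hp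
    exact ⟨hp.2.1, hp.1.2⟩
  obtain ⟨σ, hσd⟩ : ∃ σ : ℕ → ℕ, σ = fun p => ρ p % p := ⟨_, rfl⟩
  have hσ : ∀ p ∈ P, σ p < p := by
    intro p hp
    rw [hσd]
    exact Nat.mod_lt _ (hP p hp).1.pos
  obtain ⟨Q, hQd⟩ : ∃ Q : ℕ → ℕ, Q = fun n => ∏ q ∈ P.filter (fun q => n % q = σ q), q := ⟨_, rfl⟩
  have hQ : ∀ n, ∀ p ∈ P, (p ∣ Q n ↔ n % p = σ p) := by
    intro n p hp
    rw [hQd]
    constructor
    · intro h
      obtain ⟨q, hq, hpq⟩ := ((hP p hp).1.prime.dvd_finset_prod_iff _).1 h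
      rw [mem_filter] at hq
      have : p = q := (Nat.prime_dvd_prime_iff_eq (hP p hp).1 (hP q hq.1).1).1 hpq
      rw [this]
      exact hq.2
    · intro h
      exact dvd_prod_of_mem _ (mem_filter.2 ⟨hp, h⟩)
  -- the sum of the weights
  have h5l : 0 ≤ 5 * Real.log y := by positivity
  have hD : 0 ≤ (y : ℝ) ^ τ' := by positivity
  have s1 := wsum P (fun p hp => (hP p hp).1) wL σ hσ m y (5 * Real.log y) ((y : ℝ) ^ τ')
    (fun T => (c1 T).2) h5l hD (fun T hT h0 => c2 T hT (Or.inr h0)) (fun n p => p ∣ Q n) hQ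
  have s2 : ∑ n ∈ Ioc m (m + y), VV P wL (fun p => if p ∣ Q n then 1 else 0) ≤
      (((Ioc m (m + y)).filter (fun n : ℕ => ∀ p : ℕ, p.Prime → (p : ℝ) ≤ (y : ℝ) ^ (1 / 2 - η) →
        n % p ≠ ρ p)).card : ℝ) := by
    rw [card_filter]
    push_cast
    apply sum_le_sum
    intro n _
    refine (c3 (Q n)).1.trans ?_
    split_ifs with h1 h2 h2
    · exact le_rfl
    · exfalso
      apply h2
      intro p hp hpy hn
      have hpP : p ∈ P := by
        rw [hPd]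
        unfold PZ
        rw [mem_filter, mem_Icc]
        have hpr : (0 : ℝ) < p := by exact_mod_cast hp.pos
        have h3 : (p : ℝ) ≤ y := by
          refine hpy.trans ?_
          calc (y : ℝ) ^ (1 / 2 - η) ≤ (y : ℝ) ^ (1 : ℝ) :=
                Real.rpow_le_rpow_of_exponent_le (by linarith) (by linarith)
            _ = y := Real.rpow_one _
        refine ⟨⟨hp.one_le, by exact_mod_cast h3⟩, hp, ?_⟩
        unfold tt
        rw [div_lt_iff₀ hlog]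
        have h4 : Real.log p ≤ (1 / 2 - η) * Real.log y := by
          rw [← Real.log_rpow hy0]
          exact Real.log_le_log hpr hpy
        have h5 : (1 / 2 - η) * Real.log y < ζ * Real.log y := by
          apply mul_lt_mul_of_pos_right _ hlog
          linarith
        linarith
      apply h1 p hpP
      rw [hQ n p hpP, hσd]
      show n % p = ρ p % p
      rw [← hn, Nat.mod_mod]
    · exact zero_le_one
    · exact le_rfl
  -- the main term
  have s3 := (c4 (fun p => 1 / (p : ℝ)) (fun p _ => by positivity) (by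
      intro p hp
      have hp1 : (1 : ℝ) ≤ p := by exact_mod_cast (hP p hp).1.one_le
      show 1 / (p : ℝ) ≤ 1
      rw [div_le_one (by linarith)]
      exact hp1) (by
      intro p hp _
      have hp1 : (2 : ℝ) ≤ p := by exact_mod_cast (hP p hp).1.two_le
      show 1 / (p : ℝ) ≤ ((1 : ℕ) : ℝ) / ((p : ℝ) - 1)
      rw [Nat.cast_one]
      exact one_div_le_one_div_of_le (by linarith) (by linarith)) (HM y hy2)).1
  have s4 : 1 / (C * Real.log y) ≤ ∏ p ∈ P, (1 - 1 / (p : ℝ)) := by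
    have h1 := HW' y hy3
    have h2 : Pool.Agent.V5helper42.RS.W y = (∏ q ∈ (Icc 1 y).filter Nat.Prime, (1 - 1 / (q : ℝ)))⁻¹ := by
      unfold Pool.Agent.V5helper42.RS.W
      rw [prod_inv_distrib]
      simp only [one_div]
    have hfac : ∀ q : ℕ, q.Prime → 0 < 1 - 1 / (q : ℝ) ∧ 1 - 1 / (q : ℝ) ≤ 1 := by
      intro q hq
      have h2 : (2 : ℝ) ≤ q := by exact_mod_cast hq.two_le
      have h3 : 1 / (q : ℝ) ≤ 1 / 2 := one_div_le_one_div_of_le (by norm_num) h2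
      have h4 : 0 < 1 / (q : ℝ) := by positivity
      constructor <;> linarith
    have hsub : P ⊆ (Icc 1 y).filter Nat.Prime := by
      intro p hp
      rw [mem_filter, mem_Icc]
      exact ⟨⟨(hP p hp).1.one_le, (hP p hp).2⟩, (hP p hp).1⟩
    have h3 : ∏ q ∈ (Icc 1 y).filter Nat.Prime, (1 - 1 / (q : ℝ)) ≤ ∏ p ∈ P, (1 - 1 / (p : ℝ)) := by
      rw [← prod_sdiff hsub]
      have h4 : ∏ p ∈ (Icc 1 y).filter Nat.Prime \ P, (1 - 1 / (p : ℝ)) ≤ 1 :=
        prod_le_one (fun p hp => (hfac p (mem_filter.1 (mem_sdiff.1 hp).1).2).1.le)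
          (fun p hp => (hfac p (mem_filter.1 (mem_sdiff.1 hp).1).2).2)
      have h5 : 0 ≤ ∏ p ∈ P, (1 - 1 / (p : ℝ)) := prod_nonneg fun p hp => (hfac p (hP p hp).1).1.le
      calc _ ≤ 1 * ∏ p ∈ P, (1 - 1 / (p : ℝ)) := mul_le_mul_of_nonneg_right h4 h5
        _ = _ := one_mul _
    have h6 : 0 < ∏ q ∈ (Icc 1 y).filter Nat.Prime, (1 - 1 / (q : ℝ)) :=
      prod_pos fun p hp => (hfac p (mem_filter.1 hp).2).1
    refine le_trans ?_ h3
    rw [h2] at h1
    rw [one_div, inv_le_comm₀ (by positivity) h6]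
    exact h1
  have s5 : φ * (1 / (C * Real.log y)) ≤ VV P wL (fun p => 1 / (p : ℝ)) := by
    refine le_trans ?_ s3
    have : f (τ / ζ) - φ = φ := by rw [hφ]; ring
    rw [this]
    exact mul_le_mul_of_nonneg_left s4 hφ0.le
  have s6 := mul_le_mul_of_nonneg_left s5 hy0.le
  -- the error term
  have s7 : 5 * Real.log y * (y : ℝ) ^ τ' ≤ φ / (2 * C) * y / Real.log y := by
    have h1 := HY4 y hy4
    have h2 : Real.log y ^ 2 ≤ φ / (10 * C) * (y : ℝ) ^ (1 - τ') := by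
      calc Real.log y ^ 2 ≤ (Real.sqrt (φ / (10 * C)) * (y : ℝ) ^ ((1 - τ') / 2)) ^ 2 :=
            pow_le_pow_left₀ hlog.le h1 2
        _ = φ / (10 * C) * (y : ℝ) ^ (1 - τ') := by
            rw [mul_pow, Real.sq_sqrt hc1.le, ← Real.rpow_natCast ((y : ℝ) ^ ((1 - τ') / 2)),
              ← Real.rpow_mul hy0.le]
            congr 2
            push_cast
            ring
    rw [le_div_iff₀ hlog]
    have h3 : (y : ℝ) ^ (1 - τ') * (y : ℝ) ^ τ' = y := by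
      rw [← Real.rpow_add hy0]
      simp
    calc 5 * Real.log y * (y : ℝ) ^ τ' * Real.log y = 5 * (y : ℝ) ^ τ' * Real.log y ^ 2 := by ring
      _ ≤ 5 * (y : ℝ) ^ τ' * (φ / (10 * C) * (y : ℝ) ^ (1 - τ')) :=
          mul_le_mul_of_nonneg_left h2 (by positivity)
      _ = φ / (2 * C) * ((y : ℝ) ^ (1 - τ') * (y : ℝ) ^ τ') := by field_simp; ring
      _ = φ / (2 * C) * y := by rw [h3]
  have s8 : (y : ℝ) * (φ * (1 / (C * Real.log y))) = 2 * (φ / (2 * C) * y / Real.log y) := by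
    field_simp
  rw [s8] at s6
  linarith

end Pool.Agent.V5helper61.LR
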